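import Mathlib

/-!
# Finite sums with binomial coefficients and sequences satisfying the Fibonacci recurrence

`s G n r = ∑_{k ≤ n} (-1)^k C(n+k, 2k) G (2k+r)` and
`u G n r = ∑_{k ≤ n} (-1)^k C(n+k+1, 2k+1) G (2k+r)`; if `G (n+2) = G n + G (n+1)`, both change
sign when `n` is increased by `5`.
-/

set_option autoImplicit false

namespace Pool.Agent.V5helper57.FibSums

open Finset

/-- the first sum -/
def s (G : ℕ → ℚ) (n r : ℕ) : ℚ :=
  ∑ k ∈ range (n + 1), (-1) ^ k * ((n + k).choose (2 * k) : ℚ) * G (2 * k + r)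

/-- the second sum -/
def u (G : ℕ → ℚ) (n r : ℕ) : ℚ :=
  ∑ k ∈ range (n + 1), (-1) ^ k * ((n + k + 1).choose (2 * k + 1) : ℚ) * G (2 * k + r)

theorem u_succ (G : ℕ → ℚ) (n r : ℕ) : u G (n + 1) r = u G n r + s G (n + 1) r := by
  unfold u s
  have h : ∀ k ∈ range (n + 1 + 1), (-1 : ℚ) ^ k * ((n + 1 + k + 1).choose (2 * k + 1) : ℚ) * G (2 * k + r) =
      (-1) ^ k * ((n + k + 1).choose (2 * k + 1) : ℚ) * G (2 * k + r) +
      (-1) ^ k * ((n + 1 + k).choose (2 * k) : ℚ) * G (2 * k + r) := by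
    intro k _
    have e : (n + 1 + k + 1).choose (2 * k + 1) = (n + 1 + k).choose (2 * k) + (n + 1 + k).choose (2 * k + 1) :=
      Nat.choose_succ_succ _ _
    have e2 : n + 1 + k = n + k + 1 := by ring
    rw [e, Nat.cast_add]
    rw [e2]
    ring
  rw [sum_congr rfl h, sum_add_distrib]
  congr 1
  rw [sum_range_succ]
  have h0 : (n + (n + 1) + 1).choose (2 * (n + 1) + 1) = 0 := Nat.choose_eq_zero_of_lt (by omega)
  rw [h0]
  simp

theorem s_succ (G : ℕ → ℚ) (n r : ℕ) : s G (n + 1) r = s G n r - u G n (r + 2) := by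
  have h1 : s G n r = ∑ k ∈ range (n + 1 + 1), (-1) ^ k * ((n + k).choose (2 * k) : ℚ) * G (2 * k + r) := by
    rw [sum_range_succ]
    have h0 : (n + (n + 1)).choose (2 * (n + 1)) = 0 := Nat.choose_eq_zero_of_lt (by omega)
    rw [h0]
    simp [s]
  rw [h1]
  unfold s u
  rw [sum_range_succ', sum_range_succ' _ (n + 1)]
  have h : ∀ k ∈ range (n + 1), (-1 : ℚ) ^ (k + 1) * ((n + 1 + (k + 1)).choose (2 * (k + 1)) : ℚ) * G (2 * (k + 1) + r) =
      (-1) ^ (k + 1) * ((n + (k + 1)).choose (2 * (k + 1)) : ℚ) * G (2 * (k + 1) + r) -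
      (-1) ^ k * ((n + k + 1).choose (2 * k + 1) : ℚ) * G (2 * k + (r + 2)) := by
    intro k _
    have e : (n + 1 + (k + 1)).choose (2 * (k + 1)) = (n + k + 1).choose (2 * k + 1) + (n + (k + 1)).choose (2 * (k + 1)) := by
      have e1 : n + 1 + (k + 1) = (n + k + 1) + 1 := by ring
      have e2 : 2 * (k + 1) = (2 * k + 1) + 1 := by ring
      have e3 : n + (k + 1) = n + k + 1 := by ring
      rw [e1, e2, e3]
      exact Nat.choose_succ_succ _ _
    have e4 : 2 * (k + 1) + r = 2 * k + (r + 2) := by ring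
    rw [e, Nat.cast_add, e4]
    ring
  rw [sum_congr rfl h, sum_sub_distrib]
  simp
  ring

section

variable {G : ℕ → ℚ} (hG : ∀ n, G (n + 2) = G n + G (n + 1))

include hG

theorem s_rec (n r : ℕ) : s G n (r + 2) = s G n r + s G n (r + 1) := by
  unfold s
  rw [← sum_add_distrib]
  refine sum_congr rfl fun k _ => ?_
  have := hG (2 * k + r)
  rw [show 2 * k + (r + 2) = 2 * k + r + 2 by ring, show 2 * k + (r + 1) = 2 * k + r + 1 by ring, this]
  ring

theorem u_rec (n r : ℕ) : u G n (r + 2) = u G n r + u G n (r + 1) := by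
  unfold u
  rw [← sum_add_distrib]
  refine sum_congr rfl fun k _ => ?_
  have := hG (2 * k + r)
  rw [show 2 * k + (r + 2) = 2 * k + r + 2 by ring, show 2 * k + (r + 1) = 2 * k + r + 1 by ring, this]
  ring

theorem s1 (n r : ℕ) : s G (n + 1) r = s G n r - u G n r - u G n (r + 1) := by
  rw [s_succ, u_rec hG]; ring

theorem u1 (n r : ℕ) : u G (n + 1) r = s G n r - u G n (r + 1) := by
  rw [u_succ, s1 hG]; ring

theorem s2 (n r : ℕ) : s G (n + 2) r = - s G n (r + 1) + u G n (r + 1) := by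
  rw [s1 hG (n + 1) r, s1 hG n r, u1 hG n r, u1 hG n (r + 1), u_rec hG n r]; ring

theorem u2 (n r : ℕ) : u G (n + 2) r = s G n r - s G n (r + 1) := by
  rw [u1 hG (n + 1) r, s1 hG n r, u1 hG n (r + 1), u_rec hG n r]; ring

theorem s3 (n r : ℕ) : s G (n + 3) r = u G n (r + 1) := by
  rw [s1 hG (n + 2) r, s2 hG n r, u2 hG n r, u2 hG n (r + 1), s_rec hG n r]; ring

theorem u3 (n r : ℕ) : u G (n + 3) r = s G n r - s G n (r + 1) + u G n (r + 1) := by
  rw [u1 hG (n + 2) r, s2 hG n r, u2 hG n (r + 1), s_rec hG n r]; ring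

theorem s4 (n r : ℕ) : s G (n + 4) r = s G n (r + 1) - u G n r - u G n (r + 1) := by
  rw [s1 hG (n + 3) r, s3 hG n r, u3 hG n r, u3 hG n (r + 1), s_rec hG n r, u_rec hG n r]; ring

theorem u4 (n r : ℕ) : u G (n + 4) r = s G n r - u G n r := by
  rw [u1 hG (n + 3) r, s3 hG n r, u3 hG n (r + 1), s_rec hG n r, u_rec hG n r]; ring

theorem s5 (n r : ℕ) : s G (n + 5) r = - s G n r := by
  rw [s1 hG (n + 4) r, s4 hG n r, u4 hG n r, u4 hG n (r + 1)]; ring

theorem u5 (n r : ℕ) : u G (n + 5) r = - u G n r := by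
  rw [u1 hG (n + 4) r, s4 hG n r, u4 hG n (r + 1)]; ring

theorem val (j : ℕ) : ∀ r, s G (5 * j) r = (-1) ^ j * G r ∧ u G (5 * j) r = (-1) ^ j * G r := by
  induction j with
  | zero =>
    intro r
    simp [s, u]
  | succ j ih =>
    intro r
    obtain ⟨h1, h2⟩ := ih r
    rw [show 5 * (j + 1) = 5 * j + 5 by ring, s5 hG, u5 hG, h1, h2, pow_succ]
    constructor <;> ring

/-- values of the sums for `n = 5 j + i` -/
theorem vals (j r : ℕ) :
    s G (5 * j + 1) r = (-1) ^ j * (- G (r + 1)) ∧ s G (5 * j + 2) r = 0 ∧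
    s G (5 * j + 3) r = (-1) ^ j * G (r + 1) ∧ s G (5 * j + 4) r = (-1) ^ j * (- G r) ∧
    u G (5 * j + 1) r = (-1) ^ j * (G r - G (r + 1)) ∧ u G (5 * j + 2) r = (-1) ^ j * (G r - G (r + 1)) ∧
    u G (5 * j + 3) r = (-1) ^ j * G r ∧ u G (5 * j + 4) r = 0 := by
  obtain ⟨h1, h2⟩ := val hG j r
  obtain ⟨h3, h4⟩ := val hG j (r + 1)
  rw [s1 hG, s2 hG, s3 hG, s4 hG, u1 hG, u2 hG, u3 hG, u4 hG, h1, h2, h3, h4]
  refine ⟨by ring, by ring, by ring, by ring, by ring, by ring, by ring, by ring⟩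

/-- the first evaluation: the Chebyshev sum of index `2 m + 1` -/
theorem cheb1 (m : ℕ) (r : ℕ) :
    (m % 5 = 0 ∨ m % 5 = 4 → s G (2 * m + 1) r + s G (2 * m) r = G r - G (r + 1)) ∧
    (m % 5 = 1 ∨ m % 5 = 3 → s G (2 * m + 1) r + s G (2 * m) r = G (r + 1)) := by
  constructor
  · rintro (h | h)
    · obtain ⟨i, rfl⟩ : ∃ i, m = 5 * i := ⟨m / 5, by omega⟩
      rw [show 2 * (5 * i) + 1 = 5 * (2 * i) + 1 by ring, show 2 * (5 * i) = 5 * (2 * i) by ring,
        (vals hG (2 * i) r).1, (val hG (2 * i) r).1, pow_mul]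
      norm_num
      ring
    · obtain ⟨i, rfl⟩ : ∃ i, m = 5 * i + 4 := ⟨m / 5, by omega⟩
      rw [show 2 * (5 * i + 4) + 1 = 5 * (2 * i + 1) + 4 by ring,
        show 2 * (5 * i + 4) = 5 * (2 * i + 1) + 3 by ring,
        (vals hG (2 * i + 1) r).2.2.1, (vals hG (2 * i + 1) r).2.2.2.1, pow_succ, pow_mul]
      norm_num
      ring
  · rintro (h | h)
    · obtain ⟨i, rfl⟩ : ∃ i, m = 5 * i + 1 := ⟨m / 5, by omega⟩
      rw [show 2 * (5 * i + 1) + 1 = 5 * (2 * i) + 3 by ring,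
        show 2 * (5 * i + 1) = 5 * (2 * i) + 2 by ring,
        (vals hG (2 * i) r).2.2.1, (vals hG (2 * i) r).2.1, pow_mul]
      norm_num
    · obtain ⟨i, rfl⟩ : ∃ i, m = 5 * i + 3 := ⟨m / 5, by omega⟩
      rw [show 2 * (5 * i + 3) + 1 = 5 * (2 * i + 1) + 2 by ring,
        show 2 * (5 * i + 3) = 5 * (2 * i + 1) + 1 by ring,
        (vals hG (2 * i + 1) r).1, (vals hG (2 * i + 1) r).2.1, pow_succ, pow_mul]
      norm_num

/-- the second evaluation -/
theorem cheb2 (m : ℕ) (hm : 1 ≤ m) (r : ℕ) :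
    (m % 5 = 0 ∨ m % 5 = 4 → u G m r + u G (m - 1) r = (-1) ^ m * G r) ∧
    (m % 5 = 1 ∨ m % 5 = 3 → u G m r + u G (m - 1) r = (-1) ^ m * (G (r + 1) - 2 * G r)) := by
  constructor
  · rintro (h | h)
    · obtain ⟨i, rfl⟩ : ∃ i, m = 5 * (i + 1) := ⟨m / 5 - 1, by omega⟩
      rw [show 5 * (i + 1) - 1 = 5 * i + 4 by omega, (val hG (i + 1) r).2, (vals hG i r).2.2.2.2.2.2.2,
        pow_mul]
      norm_num
    · obtain ⟨i, rfl⟩ : ∃ i, m = 5 * i + 4 := ⟨m / 5, by omega⟩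
      rw [show 5 * i + 4 - 1 = 5 * i + 3 by omega, (vals hG i r).2.2.2.2.2.2.1,
        (vals hG i r).2.2.2.2.2.2.2, pow_add, pow_mul]
      norm_num
  · rintro (h | h)
    · obtain ⟨i, rfl⟩ : ∃ i, m = 5 * i + 1 := ⟨m / 5, by omega⟩
      rw [show 5 * i + 1 - 1 = 5 * i by omega, (val hG i r).2, (vals hG i r).2.2.2.2.1, pow_add, pow_mul]
      norm_num
      ring
    · obtain ⟨i, rfl⟩ : ∃ i, m = 5 * i + 3 := ⟨m / 5, by omega⟩
      rw [show 5 * i + 3 - 1 = 5 * i + 2 by omega, (vals hG i r).2.2.2.2.2.2.1,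
        (vals hG i r).2.2.2.2.2.1, pow_add, pow_mul]
      norm_num
      ring

end

end Pool.Agent.V5helper57.FibSums
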