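import Mathlib
import Pool.Agent.V5helper57.FibSums

/-!
# Closed forms of the coefficients and `p`-integrality
-/

set_option autoImplicit false

namespace Pool.Agent.V5helper57.FibSums

open Finset

/-- `p`-integral rational numbers -/
def PI (p : ℕ) (x : ℚ) : Prop := Nat.Coprime x.den p

theorem PI.of_dvd {p : ℕ} {x : ℚ} {n : ℕ} (hn : Nat.Coprime n p) (h : x.den ∣ n) : PI p x :=
  Nat.Coprime.coprime_dvd_left h hn

theorem PI.add {p : ℕ} {x y : ℚ} (hx : PI p x) (hy : PI p y) : PI p (x + y) :=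
  PI.of_dvd (Nat.Coprime.mul_left hx hy) (Rat.add_den_dvd x y)

theorem PI.mul {p : ℕ} {x y : ℚ} (hx : PI p x) (hy : PI p y) : PI p (x * y) :=
  PI.of_dvd (Nat.Coprime.mul_left hx hy) (Rat.mul_den_dvd x y)

theorem PI.int {p : ℕ} (z : ℤ) : PI p (z : ℚ) := by
  unfold PI; rw [Rat.den_intCast]; exact Nat.coprime_one_left p

theorem PI.nat {p : ℕ} (z : ℕ) : PI p (z : ℚ) := by
  unfold PI; rw [Rat.den_natCast]; exact Nat.coprime_one_left p

theorem PI.neg {p : ℕ} {x : ℚ} (hx : PI p x) : PI p (-x) := by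
  unfold PI at *; rwa [Rat.neg_den]

theorem PI.sub {p : ℕ} {x y : ℚ} (hx : PI p x) (hy : PI p y) : PI p (x - y) := by
  rw [sub_eq_add_neg]; exact hx.add hy.neg

theorem PI.pow {p : ℕ} {x : ℚ} (hx : PI p x) (n : ℕ) : PI p (x ^ n) := by
  induction n with
  | zero => rw [pow_zero]; exact_mod_cast PI.int (p := p) 1
  | succ n ih => rw [pow_succ]; exact ih.mul hx

theorem PI.inv_nat {p : ℕ} {n : ℕ} (hn : Nat.Coprime n p) : PI p ((n : ℚ)⁻¹) := by
  unfold PI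
  rw [Rat.inv_natCast_den]
  split_ifs with h
  · exact Nat.coprime_one_left p
  · exact hn

theorem PI.sum {p : ℕ} {ι : Type} (S : Finset ι) (f : ι → ℚ) (h : ∀ i ∈ S, PI p (f i)) :
    PI p (∑ i ∈ S, f i) := by
  classical
  induction S using Finset.induction_on with
  | empty => rw [sum_empty]; exact_mod_cast PI.int (p := p) 0
  | insert a S ha ih =>
    rw [sum_insert ha]
    exact (h a (mem_insert_self a S)).add (ih fun i hi => h i (mem_insert_of_mem hi))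

/-- step for the binomial coefficients `C(n+k, 2k)` -/
theorem choose_step (n k : ℕ) :
    ((n + (k + 1)).choose (2 * (k + 1)) : ℚ) * ((2 * k + 1) * (2 * k + 2)) =
      ((n + k).choose (2 * k) : ℚ) * ((n + k + 1) * ((n : ℚ) - k)) := by
  have h1 : ((n + k + 1).choose (2 * k + 2)) * (2 * k + 2) = (n + k + 1) * (n + k).choose (2 * k + 1) := by
    have := Nat.add_one_mul_choose_eq (n + k) (2 * k + 1)
    rw [show 2 * k + 1 + 1 = 2 * k + 2 by ring] at this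
    rw [this]
  have h2 : ((n + k).choose (2 * k + 1) : ℚ) * (2 * k + 1) = ((n + k).choose (2 * k) : ℚ) * ((n : ℚ) - k) := by
    rcases Nat.lt_or_ge n k with h | h
    · rw [Nat.choose_eq_zero_of_lt (show n + k < 2 * k + 1 by omega),
        Nat.choose_eq_zero_of_lt (show n + k < 2 * k by omega)]
      simp
    · have := Nat.choose_succ_right_eq (n + k) (2 * k)
      have h3 : n + k - 2 * k = n - k := by omega
      rw [h3] at this
      have h4 : ((n - k : ℕ) : ℚ) = (n : ℚ) - k := by push_cast [h]; ring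
      rw [← h4]
      exact_mod_cast this
  have h1' : ((n + k + 1).choose (2 * k + 2) : ℚ) * (2 * k + 2) = (n + k + 1) * ((n + k).choose (2 * k + 1) : ℚ) := by
    exact_mod_cast h1
  rw [show n + (k + 1) = n + k + 1 by ring, show 2 * (k + 1) = 2 * k + 2 by ring]
  calc ((n + k + 1).choose (2 * k + 2) : ℚ) * ((2 * k + 1) * (2 * k + 2))
      = (((n + k + 1).choose (2 * k + 2) : ℚ) * (2 * k + 2)) * (2 * k + 1) := by ring
    _ = (n + k + 1) * (((n + k).choose (2 * k + 1) : ℚ) * (2 * k + 1)) := by rw [h1']; ring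
    _ = _ := by rw [h2]; ring

/-- `(n + k) (C(n+k,2k) + C(n-1+k,2k)) = 2 n C(n+k,2k)` -/
theorem choose_pair (n k : ℕ) (hn : 1 ≤ n) (hk : k ≤ n) :
    ((n : ℚ) + k) * (((n + k).choose (2 * k) : ℚ) + ((n - 1 + k).choose (2 * k) : ℚ)) =
      2 * n * ((n + k).choose (2 * k) : ℚ) := by
  have h := Nat.choose_mul_succ_eq (n - 1 + k) (2 * k)
  rw [show n - 1 + k + 1 = n + k by omega, show n + k - 2 * k = n - k by omega] at h
  have h' : ((n - 1 + k).choose (2 * k) : ℚ) * ((n : ℚ) + k) = ((n + k).choose (2 * k) : ℚ) * ((n : ℚ) - k) := by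
    have h4 : ((n - k : ℕ) : ℚ) = (n : ℚ) - k := by push_cast [hk]; ring
    rw [← h4]
    exact_mod_cast h
  linear_combination h'

/-- `(2k+1) (C(m+k+1,2k+1) + C(m+k,2k+1)) = (2m+1) C(m+k,2k)` -/
theorem choose_pair' (m k : ℕ) (hk : k ≤ m) :
    (2 * (k : ℚ) + 1) * (((m + k + 1).choose (2 * k + 1) : ℚ) + ((m + k).choose (2 * k + 1) : ℚ)) =
      (2 * m + 1) * ((m + k).choose (2 * k) : ℚ) := by
  have h0 : (m + k + 1).choose (2 * k + 1) = (m + k).choose (2 * k) + (m + k).choose (2 * k + 1) :=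
    Nat.choose_succ_succ _ _
  have h := Nat.choose_succ_right_eq (m + k) (2 * k)
  rw [show m + k - 2 * k = m - k by omega] at h
  have h' : ((m + k).choose (2 * k + 1) : ℚ) * (2 * k + 1) = ((m + k).choose (2 * k) : ℚ) * ((m : ℚ) - k) := by
    have h4 : ((m - k : ℕ) : ℚ) = (m : ℚ) - k := by push_cast [hk]; ring
    rw [← h4]
    exact_mod_cast h
  rw [h0, Nat.cast_add]
  linear_combination 2 * h'

/-- the products `∏_{j<k} (1 - p²/(j+1)²)` -/
def Q1 (p : ℚ) (k : ℕ) : ℚ := ∏ j ∈ range k, (1 - p ^ 2 / ((j : ℚ) + 1) ^ 2)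

/-- the products `∏_{j<k} (1 - p²/(2j+1)²)` -/
def Q2 (p : ℚ) (k : ℕ) : ℚ := ∏ j ∈ range k, (1 - p ^ 2 / (2 * (j : ℚ) + 1) ^ 2)

theorem cb_succ (k : ℕ) : ((k : ℚ) + 1) * ((k + 1).centralBinom : ℚ) = 2 * (2 * k + 1) * (k.centralBinom : ℚ) := by
  exact_mod_cast Nat.succ_mul_centralBinom_succ k

theorem cb_ne (k : ℕ) : (k.centralBinom : ℚ) ≠ 0 := by
  exact_mod_cast Nat.centralBinom_ne_zero k

/-- closed form of the coefficients of the first Chebyshev sum -/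
theorem coef1 (p i : ℕ) (h : i + 1 ≤ p) :
    (-1 : ℚ) ^ (i + 1) * (((p + (i + 1)).choose (2 * (i + 1)) : ℚ) + ((p - 1 + (i + 1)).choose (2 * (i + 1)) : ℚ)) =
      - (2 * (p : ℚ) ^ 2 / (((i + 1 : ℕ) : ℚ) ^ 2 * ((i + 1).centralBinom : ℚ))) * Q1 p i := by
  induction i with
  | zero =>
    have h1 := choose_pair p 1 (by omega) (by omega)
    have h2 := choose_step p 0
    have hc : ((0 + 1 : ℕ).centralBinom : ℚ) = 2 := by norm_num [Nat.centralBinom]
    have hp : ((p : ℚ) + 1) ≠ 0 := by positivity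
    simp only [Nat.choose_zero_right, Nat.cast_one, mul_zero, Nat.cast_zero, add_zero, zero_add] at h1 h2 hc ⊢
    rw [hc]
    simp only [Q1, range_zero, prod_empty]
    have h3 : ((p + 1).choose (2 * 1) : ℚ) = (p + 1) * p / 2 := by linarith
    rw [h3] at h1 ⊢
    have h4 : ((p - 1 + 1).choose (2 * 1) : ℚ) = p * (p - 1) / 2 := by
      have : ((p : ℚ) + 1) * (((p - 1 + 1).choose (2 * 1) : ℚ) - p * (p - 1) / 2) = 0 := by
        linear_combination h1
      rcases mul_eq_zero.1 this with h | h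
      · exact absurd h hp
      · linarith
    rw [h4]
    norm_num
    ring
  | succ i ih =>
    have ih' := ih (by omega)
    obtain ⟨x, hx⟩ : ∃ x, x = ((p + (i + 1)).choose (2 * (i + 1)) : ℚ) := ⟨_, rfl⟩
    obtain ⟨x', hx'⟩ : ∃ x', x' = ((p + (i + 1 + 1)).choose (2 * (i + 1 + 1)) : ℚ) := ⟨_, rfl⟩
    have h1 := choose_pair p (i + 1) (by omega) (by omega)
    have h2 := choose_pair p (i + 1 + 1) (by omega) (by omega)
    have h3 := choose_step p (i + 1)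
    rw [← hx] at h1 h3
    rw [← hx'] at h2 h3
    obtain ⟨A, hA⟩ : ∃ A, A = x + ((p - 1 + (i + 1)).choose (2 * (i + 1)) : ℚ) := ⟨_, rfl⟩
    obtain ⟨B, hB⟩ : ∃ B, B = x' + ((p - 1 + (i + 1 + 1)).choose (2 * (i + 1 + 1)) : ℚ) := ⟨_, rfl⟩
    rw [← hx, ← hA] at ih'
    rw [← hx', ← hB]
    rw [← hA] at h1
    rw [← hB] at h2
    have hc := cb_succ (i + 1)
    have hc0 := cb_ne (i + 1)
    have hc1 := cb_ne (i + 1 + 1)
    have hp1 : ((p : ℚ) + (i + 1 + 1 : ℕ)) ≠ 0 := by positivity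
    have hp2 : ((p : ℚ) + (i + 1 : ℕ)) ≠ 0 := by positivity
    have hi1 : ((i : ℚ) + 1) ≠ 0 := by positivity
    have hi2 : ((i : ℚ) + 1 + 1) ≠ 0 := by positivity
    have hi3 : (2 * ((i : ℚ) + 1) + 1) ≠ 0 := by positivity
    have hi4 : (2 * ((i : ℚ) + 1) + 2) ≠ 0 := by positivity
    -- B (2i+3)(2i+4) = A (p^2 - (i+1)^2)
    have key : B * ((2 * ((i : ℚ) + 1) + 1) * (2 * ((i : ℚ) + 1) + 2)) = A * ((p : ℚ) ^ 2 - ((i : ℚ) + 1) ^ 2) := by
      apply mul_left_cancel₀ hp1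
      push_cast at h1 h2 h3 hp1 ⊢
      have e1 : ((p : ℚ) + (i + 1 + 1)) * (B * ((2 * ((i : ℚ) + 1) + 1) * (2 * ((i : ℚ) + 1) + 2))) =
          2 * p * (x' * ((2 * ((i : ℚ) + 1) + 1) * (2 * ((i : ℚ) + 1) + 2))) := by
        linear_combination ((2 * ((i : ℚ) + 1) + 1) * (2 * ((i : ℚ) + 1) + 2)) * h2
      rw [e1, h3]
      linear_combination (-(((p : ℚ) + (i + 1) + 1) * (p - (i + 1)))) * h1
    have hc2 : ((i + 1 + 1).centralBinom : ℚ) = 2 * (2 * ((i : ℚ) + 1) + 1) * ((i + 1).centralBinom : ℚ) / ((i : ℚ) + 1 + 1) := by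
      rw [eq_div_iff hi2]; push_cast at hc; linarith
    have hQ : Q1 p (i + 1) = Q1 p i * (1 - (p : ℚ) ^ 2 / ((i : ℚ) + 1) ^ 2) := by
      unfold Q1; rw [prod_range_succ]
    rw [hQ, hc2]
    have hA2 : A = (-1 : ℚ) ^ (i + 1) * (- (2 * (p : ℚ) ^ 2 / (((i + 1 : ℕ) : ℚ) ^ 2 * ((i + 1).centralBinom : ℚ))) * Q1 p i) := by
      rw [← ih', ← mul_assoc, ← mul_pow]; norm_num
    have hB2 : B = A * ((p : ℚ) ^ 2 - ((i : ℚ) + 1) ^ 2) / ((2 * ((i : ℚ) + 1) + 1) * (2 * ((i : ℚ) + 1) + 2)) := by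
      rw [eq_div_iff (by positivity)]; exact key
    rw [hB2, hA2]
    generalize ((i + 1).centralBinom : ℚ) = c at hc0 ⊢
    generalize Q1 p i = q
    have h5 : (-1 : ℚ) ^ (i + 1 + 1) = -(-1 : ℚ) ^ (i + 1) := by rw [pow_succ]; ring
    have h6 : (-1 : ℚ) ^ (i + 1) * (-1 : ℚ) ^ (i + 1) = 1 := by rw [← mul_pow]; norm_num
    rw [h5]
    push_cast
    generalize (-1 : ℚ) ^ (i + 1) = e at h6 ⊢
    field_simp
    have h7 : e ^ 2 = 1 := by rw [sq]; exact h6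
    rw [h7]
    ring

/-- closed form of the coefficients of the second Chebyshev sum, `p = 2 m + 1` -/
theorem coef2 (m i : ℕ) (h : i ≤ m) :
    (-1 : ℚ) ^ i * (((m + i + 1).choose (2 * i + 1) : ℚ) + ((m + i).choose (2 * i + 1) : ℚ)) =
      ((2 * m + 1 : ℕ) : ℚ) * ((i.centralBinom : ℚ) / ((2 * i + 1 : ℕ) * 16 ^ i)) * Q2 ((2 * m + 1 : ℕ) : ℚ) i := by
  induction i with
  | zero =>
    simp [Q2]
    ring
  | succ i ih =>
    have ih' := ih (by omega)
    have h1 := choose_pair' m i (by omega)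
    have h2 := choose_pair' m (i + 1) (by omega)
    have h3 := choose_step m i
    obtain ⟨A, hA⟩ : ∃ A, A = ((m + i + 1).choose (2 * i + 1) : ℚ) + ((m + i).choose (2 * i + 1) : ℚ) := ⟨_, rfl⟩
    obtain ⟨B, hB⟩ : ∃ B, B = ((m + (i + 1) + 1).choose (2 * (i + 1) + 1) : ℚ) + ((m + (i + 1)).choose (2 * (i + 1) + 1) : ℚ) := ⟨_, rfl⟩
    rw [← hA] at h1 ih'
    rw [← hB] at h2 ⊢
    have hc := cb_succ i
    have hc0 := cb_ne i
    have hi2 : ((i : ℚ) + 1) ≠ 0 := by positivity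
    have hi3 : (2 * (i : ℚ) + 1) ≠ 0 := by positivity
    have hi4 : (2 * (i : ℚ) + 2) ≠ 0 := by positivity
    have hi5 : (2 * ((i : ℚ) + 1) + 1) ≠ 0 := by positivity
    have hc2 : ((i + 1).centralBinom : ℚ) = 2 * (2 * (i : ℚ) + 1) * (i.centralBinom : ℚ) / ((i : ℚ) + 1) := by
      rw [eq_div_iff hi2]; linarith
    have hQ : Q2 ((2 * m + 1 : ℕ) : ℚ) (i + 1) = Q2 ((2 * m + 1 : ℕ) : ℚ) i * (1 - ((2 * m + 1 : ℕ) : ℚ) ^ 2 / (2 * (i : ℚ) + 1) ^ 2) := by
      unfold Q2; rw [prod_range_succ]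
    have hA2 : A = (-1 : ℚ) ^ i * (((2 * m + 1 : ℕ) : ℚ) * ((i.centralBinom : ℚ) / ((2 * i + 1 : ℕ) * 16 ^ i)) * Q2 ((2 * m + 1 : ℕ) : ℚ) i) := by
      rw [← ih', ← mul_assoc, ← mul_pow]; norm_num
    have hB2 : B = A * ((2 * (i : ℚ) + 1) * ((m + i + 1) * ((m : ℚ) - i))) / ((2 * ((i : ℚ) + 1) + 1) * ((2 * i + 1) * (2 * i + 2))) := by
      rw [eq_div_iff (by positivity)]
      push_cast at h1 h2 h3
      linear_combination ((2 * (i : ℚ) + 1) * (2 * i + 2)) * h2 + (2 * m + 1) * h3 - ((m + i + 1) * ((m : ℚ) - i)) * h1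
    rw [hQ, hc2, hB2, hA2]
    generalize (i.centralBinom : ℚ) = c at hc0 ⊢
    generalize Q2 ((2 * m + 1 : ℕ) : ℚ) i = q
    have h5 : (-1 : ℚ) ^ (i + 1) = -(-1 : ℚ) ^ i := by rw [pow_succ]; ring
    have h6 : (-1 : ℚ) ^ i * (-1 : ℚ) ^ i = 1 := by rw [← mul_pow]; norm_num
    rw [h5, pow_succ (16 : ℚ)]
    push_cast
    generalize (-1 : ℚ) ^ i = e at h6 ⊢
    have h16 : (16 : ℚ) ^ i ≠ 0 := by positivity
    generalize (16 : ℚ) ^ i = t at h16 ⊢
    field_simp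
    have h7 : e ^ 2 = 1 := by rw [sq]; exact h6
    rw [h7]
    ring

end Pool.Agent.V5helper57.FibSums
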