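import Mathlib
import Pool.Agent.V5helper57.FibCoef

/-!
# The four sums modulo `p ^ 2`
-/

set_option autoImplicit false

namespace Pool.Agent.V5helper57.FibSums

open Finset

theorem PI_Q1 {p : ℕ} (hp : p.Prime) (i : ℕ) (hi : i < p) :
    ∃ e : ℚ, PI p e ∧ Q1 (p : ℚ) i = 1 - (p : ℚ) ^ 2 * e := by
  induction i with
  | zero => exact ⟨0, by exact_mod_cast PI.int (p := p) 0, by simp [Q1]⟩
  | succ i ih =>
    obtain ⟨e, he, h⟩ := ih (by omega)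
    have hc : Nat.Coprime (i + 1) p := (Nat.coprime_of_lt_prime (by omega) hi hp).symm
    have h1 : PI p (((i + 1 : ℕ) : ℚ)⁻¹ ^ 2) := (PI.inv_nat hc).pow 2
    refine ⟨e + ((i + 1 : ℕ) : ℚ)⁻¹ ^ 2 - (p : ℚ) ^ 2 * e * ((i + 1 : ℕ) : ℚ)⁻¹ ^ 2,
      (he.add h1).sub ((((PI.nat p).pow 2).mul he).mul h1), ?_⟩
    have : Q1 (p : ℚ) (i + 1) = Q1 (p : ℚ) i * (1 - (p : ℚ) ^ 2 / ((i : ℚ) + 1) ^ 2) := by
      unfold Q1; rw [prod_range_succ]
    rw [this, h]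
    push_cast
    rw [div_eq_mul_inv, ← inv_pow]
    ring

theorem PI_Q2 {p : ℕ} (hp : p.Prime) (i : ℕ) (hi : 2 * i < p + 1) :
    ∃ e : ℚ, PI p e ∧ Q2 (p : ℚ) i = 1 - (p : ℚ) ^ 2 * e := by
  induction i with
  | zero => exact ⟨0, by exact_mod_cast PI.int (p := p) 0, by simp [Q2]⟩
  | succ i ih =>
    obtain ⟨e, he, h⟩ := ih (by omega)
    have hc : Nat.Coprime (2 * i + 1) p := (Nat.coprime_of_lt_prime (by omega) (by omega) hp).symm
    have h1 : PI p (((2 * i + 1 : ℕ) : ℚ)⁻¹ ^ 2) := (PI.inv_nat hc).pow 2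
    refine ⟨e + ((2 * i + 1 : ℕ) : ℚ)⁻¹ ^ 2 - (p : ℚ) ^ 2 * e * ((2 * i + 1 : ℕ) : ℚ)⁻¹ ^ 2,
      (he.add h1).sub ((((PI.nat p).pow 2).mul he).mul h1), ?_⟩
    have : Q2 (p : ℚ) (i + 1) = Q2 (p : ℚ) i * (1 - (p : ℚ) ^ 2 / (2 * (i : ℚ) + 1) ^ 2) := by
      unfold Q2; rw [prod_range_succ]
    rw [this, h]
    push_cast
    rw [div_eq_mul_inv, ← inv_pow]
    ring

/-- `p / (k² c_k)` is `p`-integral for `1 ≤ k < p` -/
theorem PI_ratio {p : ℕ} (hp : p.Prime) (k : ℕ) (hk : 1 ≤ k) (hkp : k < p) :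
    PI p ((p : ℚ) / ((k : ℚ) ^ 2 * (k.centralBinom : ℚ))) := by
  have h1 : Nat.Coprime k p := (Nat.coprime_of_lt_prime (by omega) hkp hp).symm
  have hfac : (k.centralBinom).factorization p ≤ 1 := by
    rw [Nat.centralBinom_eq_two_mul_choose]
    apply Nat.factorization_choose_le_one
    nlinarith [hp.two_le]
  have hne := Nat.centralBinom_ne_zero k
  have h2 := Nat.ordProj_mul_ordCompl_eq_self k.centralBinom p
  have h3 := Nat.coprime_ordCompl hp hne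
  obtain ⟨v, hv⟩ : ∃ v, v = k.centralBinom / p ^ (k.centralBinom).factorization p := ⟨_, rfl⟩
  rw [← hv] at h2 h3
  have hp0 : (p : ℚ) ≠ 0 := by exact_mod_cast hp.ne_zero
  have hv0 : (v : ℚ) ≠ 0 := by
    intro h
    have : v = 0 := by exact_mod_cast h
    rw [this, mul_zero] at h2
    exact hne h2.symm
  have hk0 : (k : ℚ) ≠ 0 := by
    have : k ≠ 0 := by omega
    exact_mod_cast this
  have h4 : (k.centralBinom : ℚ) = (p : ℚ) ^ (k.centralBinom).factorization p * v := by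
    rw [← h2]; push_cast
    rw [h2]
  have h5 : (p : ℚ) / ((k : ℚ) ^ 2 * (k.centralBinom : ℚ)) =
      (p : ℚ) ^ (1 - (k.centralBinom).factorization p) * ((k : ℚ)⁻¹ ^ 2 * (v : ℚ)⁻¹) := by
    rw [h4]
    have h6 : (k.centralBinom).factorization p = 0 ∨ (k.centralBinom).factorization p = 1 := by omega
    rcases h6 with h6 | h6
    · rw [h6, pow_zero, Nat.sub_zero, pow_one, one_mul]
      field_simp
    · rw [h6, pow_one, Nat.sub_self, pow_zero, one_mul]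
      field_simp
  rw [h5]
  exact ((PI.nat p).pow _).mul (((PI.inv_nat h1).pow 2).mul (PI.inv_nat h3.symm))

/-- `c_k / ((2k+1) 16^k)` is `p`-integral for `2k+1 < p`, `p` odd -/
theorem PI_ratio2 {p : ℕ} (hp : p.Prime) (h2 : p ≠ 2) (k : ℕ) (hk : 2 * k + 1 < p) :
    PI p ((k.centralBinom : ℚ) / ((2 * k + 1 : ℕ) * 16 ^ k)) := by
  have h1 : Nat.Coprime (2 * k + 1) p := (Nat.coprime_of_lt_prime (by omega) hk hp).symm
  have h3 : Nat.Coprime (16 ^ k) p := by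
    apply Nat.Coprime.pow_left
    have : Nat.Coprime 2 p := (Nat.coprime_primes Nat.prime_two hp).2 (Ne.symm h2)
    exact Nat.Coprime.pow_left 4 this
  have h4 : Nat.Coprime ((2 * k + 1) * 16 ^ k) p := Nat.Coprime.mul_left h1 h3
  have : ((k.centralBinom : ℚ) / ((2 * k + 1 : ℕ) * 16 ^ k)) =
      (k.centralBinom : ℚ) * (((2 * k + 1) * 16 ^ k : ℕ) : ℚ)⁻¹ := by
    rw [div_eq_mul_inv]; push_cast; rfl
  rw [this]
  exact (PI.nat _).mul (PI.inv_nat h4)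

section

variable (G : ℕ → ℚ)

/-- the coefficients of the first Chebyshev sum -/
def ca (p k : ℕ) : ℚ := (-1) ^ k * (((p + k).choose (2 * k) : ℚ) + ((p - 1 + k).choose (2 * k) : ℚ))

/-- the coefficients of the second Chebyshev sum -/
def cb (m k : ℕ) : ℚ := (-1) ^ k * (((m + k + 1).choose (2 * k + 1) : ℚ) + ((m + k).choose (2 * k + 1) : ℚ))

theorem sum_ca (m : ℕ) :
    ∑ k ∈ Ico 1 (2 * m + 1), ca (2 * m + 1) k * G (2 * k) =
      (s G (2 * m + 1) 0 + s G (2 * m) 0) - 2 * G 0 + G (2 * (2 * m + 1)) := by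
  have h1 : s G (2 * m + 1) 0 = ∑ k ∈ range (2 * m + 1), (-1 : ℚ) ^ k * ((2 * m + 1 + k).choose (2 * k) : ℚ) * G (2 * k) - G (2 * (2 * m + 1)) := by
    unfold s
    rw [sum_range_succ]
    have : (2 * m + 1 + (2 * m + 1)).choose (2 * (2 * m + 1)) = 1 := by
      rw [show 2 * m + 1 + (2 * m + 1) = 2 * (2 * m + 1) by ring, Nat.choose_self]
    rw [this, Odd.neg_one_pow ⟨m, rfl⟩]
    simp
    ring
  have h2 : s G (2 * m) 0 = ∑ k ∈ range (2 * m + 1), (-1 : ℚ) ^ k * ((2 * m + 1 - 1 + k).choose (2 * k) : ℚ) * G (2 * k) := by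
    unfold s
    simp
  rw [h1, h2]
  have h3 : ∑ k ∈ range (2 * m + 1), ca (2 * m + 1) k * G (2 * k) =
      ∑ k ∈ range (2 * m + 1), (-1 : ℚ) ^ k * ((2 * m + 1 + k).choose (2 * k) : ℚ) * G (2 * k) +
      ∑ k ∈ range (2 * m + 1), (-1 : ℚ) ^ k * ((2 * m + 1 - 1 + k).choose (2 * k) : ℚ) * G (2 * k) := by
    rw [← sum_add_distrib]
    refine sum_congr rfl fun k _ => ?_
    unfold ca; ring
  have h4 : ∑ k ∈ range (2 * m + 1), ca (2 * m + 1) k * G (2 * k) =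
      2 * G 0 + ∑ k ∈ Ico 1 (2 * m + 1), ca (2 * m + 1) k * G (2 * k) := by
    rw [range_eq_Ico, sum_eq_sum_Ico_succ_bot (by omega)]
    simp [ca]
    norm_num
  linarith

theorem sum_cb (m : ℕ) (hm : 1 ≤ m) :
    ∑ k ∈ range m, cb m k * G (2 * k + 1) = (u G m 1 + u G (m - 1) 1) - (-1) ^ m * G (2 * m + 1) := by
  have h1 : u G m 1 = ∑ k ∈ range m, (-1 : ℚ) ^ k * ((m + k + 1).choose (2 * k + 1) : ℚ) * G (2 * k + 1) + (-1) ^ m * G (2 * m + 1) := by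
    unfold u
    rw [sum_range_succ]
    have : (m + m + 1).choose (2 * m + 1) = 1 := by
      rw [show m + m + 1 = 2 * m + 1 by ring, Nat.choose_self]
    rw [this]
    simp
  have h2 : u G (m - 1) 1 = ∑ k ∈ range m, (-1 : ℚ) ^ k * ((m + k).choose (2 * k + 1) : ℚ) * G (2 * k + 1) := by
    unfold u
    rw [show m - 1 + 1 = m by omega]
    refine sum_congr rfl fun k _ => ?_
    rw [show m - 1 + k + 1 = m + k by omega]
  rw [h1, h2]
  have h3 : ∑ k ∈ range m, cb m k * G (2 * k + 1) =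
      ∑ k ∈ range m, (-1 : ℚ) ^ k * ((m + k + 1).choose (2 * k + 1) : ℚ) * G (2 * k + 1) +
      ∑ k ∈ range m, (-1 : ℚ) ^ k * ((m + k).choose (2 * k + 1) : ℚ) * G (2 * k + 1) := by
    rw [← sum_add_distrib]
    refine sum_congr rfl fun k _ => ?_
    unfold cb; ring
  rw [h3]; ring

/-- the first sum modulo `p^2` -/
theorem first_sum {m : ℕ} (hp : (2 * m + 1).Prime) (hG : ∀ n, PI (2 * m + 1) (G n)) :
    ∃ e : ℚ, PI (2 * m + 1) e ∧
      ((2 * m + 1 : ℕ) : ℚ) * ∑ k ∈ Ico 1 (2 * m + 1), G (2 * k) / ((k : ℚ) ^ 2 * (k.centralBinom : ℚ)) =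
      -(1 / (2 * ((2 * m + 1 : ℕ) : ℚ))) * ((s G (2 * m + 1) 0 + s G (2 * m) 0) - 2 * G 0 + G (2 * (2 * m + 1))) +
        ((2 * m + 1 : ℕ) : ℚ) ^ 2 * e := by
  obtain ⟨p, hpp⟩ : ∃ p, p = 2 * m + 1 := ⟨_, rfl⟩
  rw [← sum_ca, ← hpp]
  rw [← hpp] at hp hG
  have hp0 : (p : ℚ) ≠ 0 := by exact_mod_cast hp.ne_zero
  have key : ∀ k ∈ Ico 1 p, ∃ e : ℚ, PI p e ∧
      (p : ℚ) / ((k : ℚ) ^ 2 * (k.centralBinom : ℚ)) = -(1 / (2 * (p : ℚ))) * ca p k + (p : ℚ) ^ 2 * e := by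
    intro k hk
    rw [mem_Ico] at hk
    obtain ⟨i, rfl⟩ : ∃ i, k = i + 1 := ⟨k - 1, by omega⟩
    obtain ⟨e, he, hQ⟩ := PI_Q1 hp i (by omega)
    have hr := PI_ratio hp (i + 1) (by omega) hk.2
    have h1 : ca p (i + 1) = - (2 * (p : ℚ) ^ 2 / (((i + 1 : ℕ) : ℚ) ^ 2 * ((i + 1).centralBinom : ℚ))) * Q1 p i :=
      coef1 p i (by omega)
    refine ⟨(p : ℚ) / (((i + 1 : ℕ) : ℚ) ^ 2 * ((i + 1).centralBinom : ℚ)) * e, hr.mul he, ?_⟩
    rw [h1, hQ]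
    have hi : ((i + 1 : ℕ) : ℚ) ≠ 0 := by positivity
    have hc := cb_ne (i + 1)
    field_simp
    ring
  choose! e he using key
  refine ⟨∑ k ∈ Ico 1 p, e k * G (2 * k), PI.sum _ _ fun k hk => (he k hk).1.mul (hG _), ?_⟩
  rw [mul_sum, mul_sum, mul_sum, ← sum_add_distrib]
  refine sum_congr rfl fun k hk => ?_
  have h := (he k hk).2
  calc (p : ℚ) * (G (2 * k) / ((k : ℚ) ^ 2 * (k.centralBinom : ℚ)))
      = ((p : ℚ) / ((k : ℚ) ^ 2 * (k.centralBinom : ℚ))) * G (2 * k) := by ring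
    _ = _ := by rw [h]; ring

/-- the second sum modulo `p^2`, and modulo `p` -/
theorem second_sum {m : ℕ} (hm : 1 ≤ m) (hp : (2 * m + 1).Prime) (hG : ∀ n, PI (2 * m + 1) (G n)) :
    (∃ e : ℚ, PI (2 * m + 1) e ∧
      ∑ k ∈ range m, (k.centralBinom : ℚ) * G (2 * k + 1) / ((2 * (k : ℚ) + 1) * 16 ^ k) =
      1 / ((2 * m + 1 : ℕ) : ℚ) * ((u G m 1 + u G (m - 1) 1) - (-1) ^ m * G (2 * m + 1)) +
        ((2 * m + 1 : ℕ) : ℚ) ^ 2 * e) ∧
    ∃ e : ℚ, PI (2 * m + 1) e ∧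
      (u G m 1 + u G (m - 1) 1) - (-1) ^ m * G (2 * m + 1) = ((2 * m + 1 : ℕ) : ℚ) * e := by
  rw [← sum_cb G m hm]
  obtain ⟨p, hpp⟩ : ∃ p, p = 2 * m + 1 := ⟨_, rfl⟩
  rw [← hpp]
  rw [← hpp] at hp hG
  have hp2 : p ≠ 2 := by omega
  have hp0 : (p : ℚ) ≠ 0 := by exact_mod_cast hp.ne_zero
  have key : ∀ k ∈ range m, ∃ e f : ℚ, PI p e ∧ PI p f ∧
      (k.centralBinom : ℚ) / ((2 * k + 1 : ℕ) * 16 ^ k) = 1 / (p : ℚ) * cb m k + (p : ℚ) ^ 2 * e ∧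
      cb m k = (p : ℚ) * f := by
    intro k hk
    rw [mem_range] at hk
    obtain ⟨e, he, hQ⟩ := PI_Q2 hp k (by omega)
    have hr := PI_ratio2 hp hp2 k (by omega)
    have h1 : cb m k = (p : ℚ) * ((k.centralBinom : ℚ) / ((2 * k + 1 : ℕ) * 16 ^ k)) * Q2 (p : ℚ) k := by
      rw [hpp]; exact coef2 m k (by omega)
    refine ⟨(k.centralBinom : ℚ) / ((2 * k + 1 : ℕ) * 16 ^ k) * e,
      (k.centralBinom : ℚ) / ((2 * k + 1 : ℕ) * 16 ^ k) * (1 - (p : ℚ) ^ 2 * e), hr.mul he,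
      hr.mul ((by exact_mod_cast PI.int (p := p) 1 : PI p 1).sub (((PI.nat p).pow 2).mul he)), ?_, ?_⟩
    · rw [h1, hQ]
      field_simp
      ring
    · rw [h1, hQ]; ring
  choose! e f he using key
  refine ⟨⟨∑ k ∈ range m, e k * G (2 * k + 1), PI.sum _ _ fun k hk => (he k hk).1.mul (hG _), ?_⟩,
    ⟨∑ k ∈ range m, f k * G (2 * k + 1), PI.sum _ _ fun k hk => (he k hk).2.1.mul (hG _), ?_⟩⟩
  · rw [mul_sum, mul_sum, ← sum_add_distrib]
    refine sum_congr rfl fun k hk => ?_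
    have h := (he k hk).2.2.1
    push_cast at h
    calc (k.centralBinom : ℚ) * G (2 * k + 1) / ((2 * (k : ℚ) + 1) * 16 ^ k)
        = ((k.centralBinom : ℚ) / ((2 * (k : ℚ) + 1) * 16 ^ k)) * G (2 * k + 1) := by ring
      _ = _ := by rw [h]; ring
  · rw [mul_sum]
    refine sum_congr rfl fun k hk => ?_
    rw [(he k hk).2.2.2]; ring

end

end Pool.Agent.V5helper57.FibSums
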